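import Mathlib
import Pool.Agent.Q166.ExcSgn

/-!
# MP_713645_co: descents and excedances are strongly synchronised on even and on odd permutations

Proof: with `E n k` the Eulerian numbers, `2 A^± = E ± SD`, `2 P = E + (-1)^k C(n,k)`,
`2 Q = E - (-1)^k C(n,k)` (for `n + 1` elements); both perturbations are at most `E n k / (n+3)`
for `0 < k < n` and `n ≥ 5`, and the Eulerian numbers are ultra-log-concave.  The cases of
`3, 4, 5` elements are checked by hand.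
-/

set_option autoImplicit false

namespace Pool.Agent.Results.MP_713645_co.StrongSync

open Pool.Agent.H24R3.Eul Q166.SgnDes Q166.SyncIneq Q166.EulULC Q166.SyncCore Q166.ExcSgn

theorem small_values :
    (APlus 3 0 = 1 ∧ APlus 3 1 = 2 ∧ APlus 3 2 = 0) ∧
    (AMinus 3 0 = 0 ∧ AMinus 3 1 = 2 ∧ AMinus 3 2 = 1) ∧
    (PExc 3 0 = 1 ∧ PExc 3 1 = 1 ∧ PExc 3 2 = 1) ∧
    (QExc 3 0 = 0 ∧ QExc 3 1 = 3 ∧ QExc 3 2 = 0) := by
  have f2 : (-1 : ℤ) ^ 2 = 1 := by norm_num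
  have f3 : (-1 : ℤ) ^ 3 = -1 := by norm_num
  have f4 : (-1 : ℤ) ^ 4 = 1 := by norm_num
  have p0 : 2 * (APlus 3 0 : ℤ) = E 2 0 + SD 2 0 := APlus_eq 2 0
  have p1 : 2 * (APlus 3 1 : ℤ) = E 2 1 + SD 2 1 := APlus_eq 2 1
  have p2 : 2 * (APlus 3 2 : ℤ) = E 2 2 + SD 2 2 := APlus_eq 2 2
  have q0 : 2 * (AMinus 3 0 : ℤ) = E 2 0 - SD 2 0 := AMinus_eq 2 0
  have q1 : 2 * (AMinus 3 1 : ℤ) = E 2 1 - SD 2 1 := AMinus_eq 2 1
  have q2 : 2 * (AMinus 3 2 : ℤ) = E 2 2 - SD 2 2 := AMinus_eq 2 2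
  have r0 : 2 * (PExc 3 0 : ℤ) = E 2 0 + (-1) ^ 0 * (Nat.choose 2 0 : ℤ) := PExc_eq 2 0
  have r1 : 2 * (PExc 3 1 : ℤ) = E 2 1 + (-1) ^ 1 * (Nat.choose 2 1 : ℤ) := PExc_eq 2 1
  have r2 : 2 * (PExc 3 2 : ℤ) = E 2 2 + (-1) ^ 2 * (Nat.choose 2 2 : ℤ) := PExc_eq 2 2
  have t0 : 2 * (QExc 3 0 : ℤ) = E 2 0 - (-1) ^ 0 * (Nat.choose 2 0 : ℤ) := QExc_eq 2 0
  have t1 : 2 * (QExc 3 1 : ℤ) = E 2 1 - (-1) ^ 1 * (Nat.choose 2 1 : ℤ) := QExc_eq 2 1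
  have t2 : 2 * (QExc 3 2 : ℤ) = E 2 2 - (-1) ^ 2 * (Nat.choose 2 2 : ℤ) := QExc_eq 2 2
  have s20 : SD 2 0 = 1 := by rw [SD_zero, SD_0]; simp
  have s21 : SD 2 1 = 0 := by rw [SD_one, SD_0, SD_0]; simp
  have s22 : SD 2 2 = -1 := by
    rw [show (2 : ℕ) = 0 + 2 by rfl, SD_rec, SD_0, SD_0, SD_0]; norm_num
  have e11 : E 1 1 = 1 := E_top 1
  have e1 : E 2 1 = 4 := by rw [E_one, e11]; norm_num
  have c0 : ((Nat.choose 2 0 : ℕ) : ℤ) = 1 := by norm_num [Nat.choose]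
  have c1 : ((Nat.choose 2 1 : ℕ) : ℤ) = 2 := by norm_num [Nat.choose]
  have c2 : ((Nat.choose 2 2 : ℕ) : ℤ) = 1 := by norm_num [Nat.choose]
  rw [s20, E_zero] at p0 q0
  rw [s21, e1] at p1 q1
  rw [s22, E_top] at p2 q2
  rw [E_zero, c0] at r0 t0
  rw [e1, c1] at r1 t1
  rw [E_top, c2] at r2 t2
  simp only [pow_zero, pow_one, one_mul, neg_mul, f2, f3, f4] at *
  omega

theorem small_values4 :
    (APlus 4 0 = 1 ∧ APlus 4 1 = 5 ∧ APlus 4 2 = 5 ∧ APlus 4 3 = 1) ∧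
    (AMinus 4 0 = 0 ∧ AMinus 4 1 = 6 ∧ AMinus 4 2 = 6 ∧ AMinus 4 3 = 0) ∧
    (PExc 4 0 = 1 ∧ PExc 4 1 = 4 ∧ PExc 4 2 = 7 ∧ PExc 4 3 = 0) ∧
    (QExc 4 0 = 0 ∧ QExc 4 1 = 7 ∧ QExc 4 2 = 4 ∧ QExc 4 3 = 1) := by
  have f2 : (-1 : ℤ) ^ 2 = 1 := by norm_num
  have f3 : (-1 : ℤ) ^ 3 = -1 := by norm_num
  have f4 : (-1 : ℤ) ^ 4 = 1 := by norm_num
  have p0 : 2 * (APlus 4 0 : ℤ) = E 3 0 + SD 3 0 := APlus_eq 3 0
  have p1 : 2 * (APlus 4 1 : ℤ) = E 3 1 + SD 3 1 := APlus_eq 3 1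
  have p2 : 2 * (APlus 4 2 : ℤ) = E 3 2 + SD 3 2 := APlus_eq 3 2
  have p3 : 2 * (APlus 4 3 : ℤ) = E 3 3 + SD 3 3 := APlus_eq 3 3
  have q0 : 2 * (AMinus 4 0 : ℤ) = E 3 0 - SD 3 0 := AMinus_eq 3 0
  have q1 : 2 * (AMinus 4 1 : ℤ) = E 3 1 - SD 3 1 := AMinus_eq 3 1
  have q2 : 2 * (AMinus 4 2 : ℤ) = E 3 2 - SD 3 2 := AMinus_eq 3 2
  have q3 : 2 * (AMinus 4 3 : ℤ) = E 3 3 - SD 3 3 := AMinus_eq 3 3
  have r0 : 2 * (PExc 4 0 : ℤ) = E 3 0 + (-1) ^ 0 * (Nat.choose 3 0 : ℤ) := PExc_eq 3 0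
  have r1 : 2 * (PExc 4 1 : ℤ) = E 3 1 + (-1) ^ 1 * (Nat.choose 3 1 : ℤ) := PExc_eq 3 1
  have r2 : 2 * (PExc 4 2 : ℤ) = E 3 2 + (-1) ^ 2 * (Nat.choose 3 2 : ℤ) := PExc_eq 3 2
  have r3 : 2 * (PExc 4 3 : ℤ) = E 3 3 + (-1) ^ 3 * (Nat.choose 3 3 : ℤ) := PExc_eq 3 3
  have t0 : 2 * (QExc 4 0 : ℤ) = E 3 0 - (-1) ^ 0 * (Nat.choose 3 0 : ℤ) := QExc_eq 3 0
  have t1 : 2 * (QExc 4 1 : ℤ) = E 3 1 - (-1) ^ 1 * (Nat.choose 3 1 : ℤ) := QExc_eq 3 1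
  have t2 : 2 * (QExc 4 2 : ℤ) = E 3 2 - (-1) ^ 2 * (Nat.choose 3 2 : ℤ) := QExc_eq 3 2
  have t3 : 2 * (QExc 4 3 : ℤ) = E 3 3 - (-1) ^ 3 * (Nat.choose 3 3 : ℤ) := QExc_eq 3 3
  have s12 : SD 1 2 = 0 := SD_big 1 2 (by omega)
  have s13 : SD 1 3 = 0 := SD_big 1 3 (by omega)
  have s30 : SD 3 0 = 1 := by rw [show (3 : ℕ) = 1 + 2 by rfl, SD_zero, SD_1_0]
  have s31 : SD 3 1 = -1 := by
    rw [show (3 : ℕ) = 1 + 2 by rfl, SD_one, SD_1_1, SD_1_0]; norm_num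
  have s32 : SD 3 2 = -1 := by
    have := SD_rec 1 0
    rw [show (0 + 2 : ℕ) = 2 by rfl, show (0 + 1 : ℕ) = 1 by rfl, show (1 + 2 : ℕ) = 3 by rfl,
      s12, SD_1_1, SD_1_0] at this
    rw [this]; norm_num
  have s33 : SD 3 3 = 1 := by
    have := SD_rec 1 1
    rw [show (1 + 2 : ℕ) = 3 by rfl, show (1 + 1 : ℕ) = 2 by rfl, s12, s13, SD_1_1] at this
    rw [this]; norm_num
  have e11 : E 1 1 = 1 := E_top 1
  have e21 : E 2 1 = 4 := by rw [E_one, e11]; norm_num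
  have e31 : E 3 1 = 11 := by rw [E_one, e21]; norm_num
  have e32 : E 3 2 = 11 := by rw [← e31]; exact (E_symm 3 2 (by omega)).symm
  have c0 : ((Nat.choose 3 0 : ℕ) : ℤ) = 1 := by norm_num [Nat.choose]
  have c1 : ((Nat.choose 3 1 : ℕ) : ℤ) = 3 := by norm_num [Nat.choose]
  have c2 : ((Nat.choose 3 2 : ℕ) : ℤ) = 3 := by norm_num [Nat.choose]
  have c3 : ((Nat.choose 3 3 : ℕ) : ℤ) = 1 := by norm_num [Nat.choose]
  rw [s30, E_zero] at p0 q0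
  rw [s31, e31] at p1 q1
  rw [s32, e32] at p2 q2
  rw [s33, E_top] at p3 q3
  rw [E_zero, c0] at r0 t0
  rw [e31, c1] at r1 t1
  rw [e32, c2] at r2 t2
  rw [E_top, c3] at r3 t3
  simp only [pow_zero, pow_one, one_mul, neg_mul, f2, f3, f4] at *
  omega

theorem small_values5 :
    (APlus 5 0 = 1 ∧ APlus 5 1 = 14 ∧ APlus 5 2 = 30 ∧ APlus 5 3 = 14 ∧ APlus 5 4 = 1) ∧
    (AMinus 5 0 = 0 ∧ AMinus 5 1 = 12 ∧ AMinus 5 2 = 36 ∧ AMinus 5 3 = 12 ∧ AMinus 5 4 = 0) ∧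
    (PExc 5 0 = 1 ∧ PExc 5 1 = 11 ∧ PExc 5 2 = 36 ∧ PExc 5 3 = 11 ∧ PExc 5 4 = 1) ∧
    (QExc 5 0 = 0 ∧ QExc 5 1 = 15 ∧ QExc 5 2 = 30 ∧ QExc 5 3 = 15 ∧ QExc 5 4 = 0) := by
  have f2 : (-1 : ℤ) ^ 2 = 1 := by norm_num
  have f3 : (-1 : ℤ) ^ 3 = -1 := by norm_num
  have f4 : (-1 : ℤ) ^ 4 = 1 := by norm_num
  have p0 : 2 * (APlus 5 0 : ℤ) = E 4 0 + SD 4 0 := APlus_eq 4 0
  have p1 : 2 * (APlus 5 1 : ℤ) = E 4 1 + SD 4 1 := APlus_eq 4 1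
  have p2 : 2 * (APlus 5 2 : ℤ) = E 4 2 + SD 4 2 := APlus_eq 4 2
  have p3 : 2 * (APlus 5 3 : ℤ) = E 4 3 + SD 4 3 := APlus_eq 4 3
  have p4 : 2 * (APlus 5 4 : ℤ) = E 4 4 + SD 4 4 := APlus_eq 4 4
  have q0 : 2 * (AMinus 5 0 : ℤ) = E 4 0 - SD 4 0 := AMinus_eq 4 0
  have q1 : 2 * (AMinus 5 1 : ℤ) = E 4 1 - SD 4 1 := AMinus_eq 4 1
  have q2 : 2 * (AMinus 5 2 : ℤ) = E 4 2 - SD 4 2 := AMinus_eq 4 2
  have q3 : 2 * (AMinus 5 3 : ℤ) = E 4 3 - SD 4 3 := AMinus_eq 4 3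
  have q4 : 2 * (AMinus 5 4 : ℤ) = E 4 4 - SD 4 4 := AMinus_eq 4 4
  have r0 : 2 * (PExc 5 0 : ℤ) = E 4 0 + (-1) ^ 0 * (Nat.choose 4 0 : ℤ) := PExc_eq 4 0
  have r1 : 2 * (PExc 5 1 : ℤ) = E 4 1 + (-1) ^ 1 * (Nat.choose 4 1 : ℤ) := PExc_eq 4 1
  have r2 : 2 * (PExc 5 2 : ℤ) = E 4 2 + (-1) ^ 2 * (Nat.choose 4 2 : ℤ) := PExc_eq 4 2
  have r3 : 2 * (PExc 5 3 : ℤ) = E 4 3 + (-1) ^ 3 * (Nat.choose 4 3 : ℤ) := PExc_eq 4 3
  have r4 : 2 * (PExc 5 4 : ℤ) = E 4 4 + (-1) ^ 4 * (Nat.choose 4 4 : ℤ) := PExc_eq 4 4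
  have t0 : 2 * (QExc 5 0 : ℤ) = E 4 0 - (-1) ^ 0 * (Nat.choose 4 0 : ℤ) := QExc_eq 4 0
  have t1 : 2 * (QExc 5 1 : ℤ) = E 4 1 - (-1) ^ 1 * (Nat.choose 4 1 : ℤ) := QExc_eq 4 1
  have t2 : 2 * (QExc 5 2 : ℤ) = E 4 2 - (-1) ^ 2 * (Nat.choose 4 2 : ℤ) := QExc_eq 4 2
  have t3 : 2 * (QExc 5 3 : ℤ) = E 4 3 - (-1) ^ 3 * (Nat.choose 4 3 : ℤ) := QExc_eq 4 3
  have t4 : 2 * (QExc 5 4 : ℤ) = E 4 4 - (-1) ^ 4 * (Nat.choose 4 4 : ℤ) := QExc_eq 4 4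
  have s20 : SD 2 0 = 1 := by rw [SD_zero, SD_0]; simp
  have s21 : SD 2 1 = 0 := by rw [SD_one, SD_0, SD_0]; simp
  have s22 : SD 2 2 = -1 := by
    rw [show (2 : ℕ) = 0 + 2 by rfl, SD_rec, SD_0, SD_0, SD_0]; norm_num
  have s23 : SD 2 3 = 0 := SD_big 2 3 (by omega)
  have s24 : SD 2 4 = 0 := SD_big 2 4 (by omega)
  have s40 : SD 4 0 = 1 := by rw [show (4 : ℕ) = 2 + 2 by rfl, SD_zero, s20]
  have s41 : SD 4 1 = 2 := by
    rw [show (4 : ℕ) = 2 + 2 by rfl, SD_one, s21, s20]; norm_num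
  have s42 : SD 4 2 = -6 := by
    have := SD_rec 2 0
    rw [show (0 + 2 : ℕ) = 2 by rfl, show (0 + 1 : ℕ) = 1 by rfl, show (2 + 2 : ℕ) = 4 by rfl,
      s22, s21, s20] at this
    rw [this]; norm_num
  have s43 : SD 4 3 = 2 := by
    have := SD_rec 2 1
    rw [show (1 + 2 : ℕ) = 3 by rfl, show (1 + 1 : ℕ) = 2 by rfl, show (2 + 2 : ℕ) = 4 by rfl,
      s23, s22, s21] at this
    rw [this]; norm_num
  have s44 : SD 4 4 = 1 := by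
    have := SD_rec 2 2
    rw [show (2 + 2 : ℕ) = 4 by rfl, show (2 + 1 : ℕ) = 3 by rfl, s24, s23, s22] at this
    rw [this]; norm_num
  have e11 : E 1 1 = 1 := E_top 1
  have e21 : E 2 1 = 4 := by rw [E_one, e11]; norm_num
  have e31 : E 3 1 = 11 := by rw [E_one, e21]; norm_num
  have e41 : E 4 1 = 26 := by rw [E_one, e31]; norm_num
  have e22 : E 2 2 = 1 := E_top 2
  have e32 : E 3 2 = 11 := by rw [E_two, e22, e21]; norm_num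
  have e42 : E 4 2 = 66 := by rw [E_two, e32, e31]; norm_num
  have e43 : E 4 3 = 26 := by rw [← e41]; exact (E_symm 4 3 (by omega)).symm
  have c0 : ((Nat.choose 4 0 : ℕ) : ℤ) = 1 := by norm_num [Nat.choose]
  have c1 : ((Nat.choose 4 1 : ℕ) : ℤ) = 4 := by norm_num [Nat.choose]
  have c2 : ((Nat.choose 4 2 : ℕ) : ℤ) = 6 := by norm_num [Nat.choose]
  have c3 : ((Nat.choose 4 3 : ℕ) : ℤ) = 4 := by norm_num [Nat.choose]
  have c4 : ((Nat.choose 4 4 : ℕ) : ℤ) = 1 := by norm_num [Nat.choose]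
  rw [s40, E_zero] at p0 q0
  rw [s41, e41] at p1 q1
  rw [s42, e42] at p2 q2
  rw [s43, e43] at p3 q3
  rw [s44, E_top] at p4 q4
  rw [E_zero, c0] at r0 t0
  rw [e41, c1] at r1 t1
  rw [e42, c2] at r2 t2
  rw [e43, c3] at r3 t3
  rw [E_top, c4] at r4 t4
  simp only [pow_zero, pow_one, one_mul, neg_mul, f2, f3, f4] at *
  omega

theorem small2 : StronglySynchronised 2 (APlus 3) (PExc 3) ∧
    StronglySynchronised 2 (AMinus 3) (QExc 3) := by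
  obtain ⟨⟨a0, a1, a2⟩, ⟨b0, b1, b2⟩, ⟨c0, c1, c2⟩, ⟨d0, d1, d2⟩⟩ := small_values
  constructor
  · intro k hk1 hk2
    have hk : k = 1 := by omega
    subst hk
    rw [show 1 - 1 = 0 by rfl, show 1 + 1 = 2 by rfl, a0, a1, a2, c0, c1, c2]
    norm_num
  · intro k hk1 hk2
    have hk : k = 1 := by omega
    subst hk
    rw [show 1 - 1 = 0 by rfl, show 1 + 1 = 2 by rfl, b0, b1, b2, d0, d1, d2]
    norm_num

theorem small3 : StronglySynchronised 3 (APlus 4) (PExc 4) ∧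
    StronglySynchronised 3 (AMinus 4) (QExc 4) := by
  obtain ⟨⟨a0, a1, a2, a3⟩, ⟨b0, b1, b2, b3⟩, ⟨c0, c1, c2, c3⟩, ⟨d0, d1, d2, d3⟩⟩ := small_values4
  constructor
  · intro k hk1 hk2
    rcases (show k = 1 ∨ k = 2 by omega) with rfl | rfl
    · rw [show 1 - 1 = 0 by rfl, show 1 + 1 = 2 by rfl, a0, a1, a2, c0, c1, c2]
      norm_num
    · rw [show 2 - 1 = 1 by rfl, show 2 + 1 = 3 by rfl, a3, a1, a2, c3, c1, c2]
      norm_num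
  · intro k hk1 hk2
    rcases (show k = 1 ∨ k = 2 by omega) with rfl | rfl
    · rw [show 1 - 1 = 0 by rfl, show 1 + 1 = 2 by rfl, b0, b1, b2, d0, d1, d2]
      norm_num
    · rw [show 2 - 1 = 1 by rfl, show 2 + 1 = 3 by rfl, b3, b1, b2, d3, d1, d2]
      norm_num

theorem small4 : StronglySynchronised 4 (APlus 5) (PExc 5) ∧
    StronglySynchronised 4 (AMinus 5) (QExc 5) := by
  obtain ⟨⟨a0, a1, a2, a3, a4⟩, ⟨b0, b1, b2, b3, b4⟩, ⟨c0, c1, c2, c3, c4⟩,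
    ⟨d0, d1, d2, d3, d4⟩⟩ := small_values5
  constructor
  · intro k hk1 hk2
    rcases (show k = 1 ∨ k = 2 ∨ k = 3 by omega) with rfl | rfl | rfl
    · rw [show 1 - 1 = 0 by rfl, show 1 + 1 = 2 by rfl, a0, a1, a2, c0, c1, c2]
      norm_num
    · rw [show 2 - 1 = 1 by rfl, show 2 + 1 = 3 by rfl, a3, a1, a2, c3, c1, c2]
      norm_num
    · rw [show 3 - 1 = 2 by rfl, show 3 + 1 = 4 by rfl, a3, a4, a2, c3, c4, c2]
      norm_num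
  · intro k hk1 hk2
    rcases (show k = 1 ∨ k = 2 ∨ k = 3 by omega) with rfl | rfl | rfl
    · rw [show 1 - 1 = 0 by rfl, show 1 + 1 = 2 by rfl, b0, b1, b2, d0, d1, d2]
      norm_num
    · rw [show 2 - 1 = 1 by rfl, show 2 + 1 = 3 by rfl, b3, b1, b2, d3, d1, d2]
      norm_num
    · rw [show 3 - 1 = 2 by rfl, show 3 + 1 = 4 by rfl, b3, b4, b2, d3, d4, d2]
      norm_num

theorem large (m : ℕ) (hm : 5 ≤ m) (k : ℕ) :
    max |SD m k| (m.choose k : ℤ) ≤ E m k ∧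
      (1 ≤ k → k + 1 ≤ m → ((m : ℤ) + 3) * max |SD m k| (m.choose k : ℤ) ≤ E m k) := by
  have h2 : 1 ≤ k → k + 1 ≤ m → ((m : ℤ) + 3) * max |SD m k| (m.choose k : ℤ) ≤ E m k := by
    intro h1 h2
    have e1 := SD_bound m (by omega) k h1 h2
    have e2 := choose_bound m hm k h1 h2
    rcases max_cases |SD m k| (m.choose k : ℤ) with h | h <;> rw [h.1]
    · exact e1
    · exact e2
  refine ⟨?_, h2⟩
  rcases Nat.eq_zero_or_pos k with h | h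
  · subst h
    rw [E_zero]
    apply max_le
    · have := SD_le m 0
      rwa [E_zero] at this
    · simp
  · rcases Nat.lt_or_ge k m with h' | h'
    · have e := h2 h h'
      have e0 : (0 : ℤ) ≤ max |SD m k| (m.choose k : ℤ) := le_max_of_le_left (abs_nonneg _)
      nlinarith
    · rcases Nat.eq_or_lt_of_le h' with h'' | h''
      · subst h''
        rw [E_top]
        exact max_le (SD_top_le m) (by simp)
      · rw [SD_big m k h'', Nat.choose_eq_zero_of_lt h'', E_big m k h'']; simp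

/-- For every `n ≥ 1` the sequences `(A^+_{n,k})` and `(P_{n,k})` are strongly synchronised, and
so are the sequences `(A^-_{n,k})` and `(Q_{n,k})`, `0 ≤ k ≤ n - 1`. -/
theorem result : (∀ n : ℕ, 1 ≤ n → StronglySynchronised (n - 1) (APlus n) (PExc n)) ∧
    (∀ n : ℕ, 1 ≤ n → StronglySynchronised (n - 1) (AMinus n) (QExc n)) := by
  have key : ∀ n : ℕ, 1 ≤ n → StronglySynchronised (n - 1) (APlus n) (PExc n) ∧
      StronglySynchronised (n - 1) (AMinus n) (QExc n) := by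
    intro n hn
    obtain ⟨m, rfl⟩ : ∃ m, n = m + 1 := ⟨n - 1, by omega⟩
    rw [show m + 1 - 1 = m by omega]
    rcases Nat.lt_or_ge m 5 with h | h
    · rcases (show m = 0 ∨ m = 1 ∨ m = 2 ∨ m = 3 ∨ m = 4 by omega) with rfl | rfl | rfl | rfl | rfl
      · constructor <;> (intro k h1 h2; omega)
      · constructor <;> (intro k h1 h2; omega)
      · exact small2
      · exact small3
      · exact small4
    · have hneg : ∀ k, |(-1 : ℤ) ^ k * (m.choose k : ℤ)| = (m.choose k : ℤ) := by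
        intro k
        rw [abs_mul, abs_pow, abs_neg, abs_one, one_pow, one_mul]
        exact abs_of_nonneg (by positivity)
      constructor
      · apply sync_of m (by omega) _ _ (SD m) (fun k => (-1) ^ k * (m.choose k : ℤ))
          (fun k => max |SD m k| (m.choose k : ℤ))
        · exact APlus_eq m
        · exact PExc_eq m
        · intro k; exact le_max_left _ _
        · intro k; rw [hneg]; exact le_max_right _ _
        · intro k; exact (large m h k).1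
        · intro k h1 h2; exact (large m h k).2 h1 h2
      · apply sync_of m (by omega) _ _ (fun k => -SD m k)
          (fun k => -((-1) ^ k * (m.choose k : ℤ))) (fun k => max |SD m k| (m.choose k : ℤ))
        · intro k; rw [AMinus_eq m k]; ring
        · intro k; rw [QExc_eq m k]; ring
        · intro k; rw [abs_neg]; exact le_max_left _ _
        · intro k; rw [abs_neg, hneg]; exact le_max_right _ _
        · intro k; exact (large m h k).1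
        · intro k h1 h2; exact (large m h k).2 h1 h2
  exact ⟨fun n hn => (key n hn).1, fun n hn => (key n hn).2⟩

end Pool.Agent.Results.MP_713645_co.StrongSync
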